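import Mathlib
import Pool.Agent.Y816.GL3R.End

/-!
# `GL(3)` over `ℚ`: what would follow if few components were tempered

Let `π` be a cusp form on `PGL_3` over `ℚ` which is unramified at all primes, with Satake parameters `α_{i,p}`,
`i = 1, 2, 3`; `π` is globally generic, and `π_p` is tempered iff `|α_{i,p}| = 1` for all `i`. Suppose that the
generalized Ramanujan conjecture fails for `π` in the strong sense that for some `c < 1`

  `#{p ≤ x : π_p tempered} ≤ C x^c` for all `x ≥ 1`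

(this is not excluded at present: it is not known that the tempered primes have positive density). Then

* the Satake parameters are nearly unitary in mean square: `∑_p (∑_i (|α_{i,p}| - 1)²) p^{-t} < ∞` for all `t > c`;
* the Hecke eigenvalues `λ(p) = ∑_i α_{i,p}` concentrate near three points: there are cube roots of unity `ω_p` with
  `∑_p |λ(p) + ω_p|² p^{-t} < ∞` for all `t > c`;
* `π` is not self-dual;
* for **every** Dirichlet character `χ` (of any modulus), `L(s, π × χ)` has no zero with `Re s > (1 + c) / 2`;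
* for every Dirichlet character `χ`, `L(s, π × π × χ)` is entire and has no zero with `Re s > (1 + c) / 2`;
* for every Dirichlet character `χ`, `L(s, π × π~ × χ) = F(s) L(s, χ)` where `F` is holomorphic and without zeros
  for `Re s > c`.

So a cusp form whose tempered primes are that sparse satisfies quasi-Riemann hypotheses; conversely one zero of one of
the functions `L(s, π × χ)`, `L(s, π × π × χ)` with real part `β` shows that the number of the tempered primes up to
`x` is not `O(x^c)` for any `c < 2 β - 1`, and for self-dual `π` it is not `O(x^c)` for any `c < 1`.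

The structure `CuspFormPGL3` lists what is used of `π`; all of it is known (Jacquet, Piatetski-Shapiro, Shalika,
Moeglin, Waldspurger). The reason: if `π_p` is not tempered then `α_p = (X u, u / X, u^{-2})` with `|u| = 1`, `X > 1`,
and with `D = |λ(p)|² - 1 ≥ 0` one has `|λ(p)² + \bar λ(p)|² ≤ 8 D (D + 1)`. By Landau's lemma `∑ D p^{-t}` converges
for `t > c`, so the Dirichlet series of `log (L(s, π × π × χ) L(s, π~ × χ))` converges for `Re s > (1 + c) / 2`.
-/

set_option autoImplicit false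

namespace Pool.Agent.Results.MP_08cfa9_nt.FewTemperedPrimes

open Complex Pool.Agent.Y816.GL3R Pool.Agent.TH949.RES

/-- **Cusp forms on `PGL(3)` with few tempered primes.** `tr α p k = ∑_i α_{i,p}^k`, and
`logE χ t s = ∑_p ∑_{k ≥ 1} χ(p)^k t(p, k) / (k p^{k s})`. -/
theorem result {α : Nat.Primes → Fin 3 → ℂ} {μ : Fin 3 → ℂ} (h : CuspFormPGL3 α μ) {c C : ℝ} (hc : c < 1)
    (hfew : ∀ x : ℝ, 1 ≤ x →
      (({p : Nat.Primes | ((p : ℕ) : ℝ) ≤ x ∧ ∀ i, ‖α p i‖ = 1}.ncard : ℕ) : ℝ) ≤ C * x ^ c) :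
    (∀ t : ℝ, c < t → Summable fun p : Nat.Primes => (∑ i, (‖α p i‖ - 1) ^ 2) * ((p : ℕ) : ℝ) ^ (-t)) ∧
    (∃ ω : Nat.Primes → ℂ, (∀ p, ω p ^ 3 = 1) ∧
      ∀ t : ℝ, c < t → Summable fun p : Nat.Primes => ‖∑ i, α p i + ω p‖ ^ 2 * ((p : ℕ) : ℝ) ^ (-t)) ∧
    (¬ ∀ p, ∃ τ : Equiv.Perm (Fin 3), ∀ i, α p (τ i) = (α p i)⁻¹) ∧
    ∀ (q : ℕ) [NeZero q] (χ : DirichletCharacter ℂ q),
      (∀ E : ℂ → ℂ, Differentiable ℂ E → (∀ s : ℂ, 1 < s.re → E s = cexp (logE χ (tr α) s)) →
        ∀ s : ℂ, (1 + c) / 2 < s.re → E s ≠ 0) ∧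
      (∃ H : ℂ → ℂ, Differentiable ℂ H ∧
        (∀ s : ℂ, 1 < s.re → H s = cexp (logE χ (fun p k => tr α p k ^ 2) s)) ∧
        ∀ s : ℂ, (1 + c) / 2 < s.re → H s ≠ 0) ∧
      ∃ F : ℂ → ℂ, DifferentiableOn ℂ F {s | c < s.re} ∧ (∀ s : ℂ, c < s.re → F s ≠ 0) ∧
        ∀ s : ℂ, 1 < s.re → F s * DirichletCharacter.LFunction χ s =
          cexp (logE χ (fun p k => ((‖tr α p k‖ ^ 2 : ℝ) : ℂ)) s) := by
  obtain ⟨-, hd, hT, G, hG, hG1, hG2⟩ := landau3 h (of_count hfew)
  have hdT : ∀ p, ¬ Tmp α p → 0 ≤ ‖∑ i, α p i‖ ^ 2 - 1 := by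
    intro p hp
    have h1 := (local2 h hp).1
    refine le_trans ?_ h1
    exact Finset.sum_nonneg fun i _ => sq_nonneg _
  refine ⟨fun t ht => ?_, ?_, not_selfdual h hc hd hT hG hG1 hG2, fun q _ χ => ⟨fun E hE hE1 s hs => ?_, ?_, ?_⟩⟩
  · refine summable_first (f := fun p => ∑ i, (‖α p i‖ - 1) ^ 2) (C := 1) zero_le_one
      (fun p => Finset.sum_nonneg fun i _ => sq_nonneg _) (fun p hp => ?_) (fun p hp => ?_) hd hT ht
    · rw [tmp_sum hp]
      exact zero_le_one
    · rw [one_mul]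
      exact (local2 h hp).1
  · obtain ⟨ω, h1, h2, h3⟩ := roots h
    refine ⟨ω, h1, fun t ht => ?_⟩
    refine summable_first (f := fun p => ‖∑ i, α p i + ω p‖ ^ 2) (C := 34) (by norm_num)
      (fun p => sq_nonneg _) (fun p hp => ?_) (fun p hp => h3 p hp) hd hT ht
    exact (h2 p hp).trans (by norm_num)
  · obtain ⟨E', hE', hE1', hE2'⟩ := nonvanishing' h χ hc hd hT
    rw [entire_unique hE hE' fun s hs => by rw [hE1 s hs, hE1' s hs]]
    exact hE2' s hs
  · obtain ⟨E₀, H, -, hH, -, hH1, hH2⟩ := nonvanishing h χ hc hd hT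
    exact ⟨H, hH, hH1, fun s hs => (hH2 s hs).2⟩
  · exact adjoint h.toSphericalCuspForm χ hd

end Pool.Agent.Results.MP_08cfa9_nt.FewTemperedPrimes
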