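import Mathlib
import Pool.Agent.Q18.S.GSp

/-!
# Globally generic representations of `PGSp_4`: the non-tempered places

Let `K` be a number field and `Π` a globally generic (unitary) cuspidal automorphic representation of
`PGSp_4(𝔸_K) = SO_5(𝔸_K)`, unramified outside the finite set `S`.  For `v ∉ S` let `a_v, b_v` be its Satake parameters: the
eigenvalues in the 4-dimensional spin representation are `a, b, 1/a, 1/b`, in the 5-dimensional standard
representation `1, ab, 1/(ab), a/b, b/a`; the latter has trace `1 + (a + 1/a)(b + 1/b)`.  `Π_v` is tempered iff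
`|a_v| = |b_v| = 1`.  As `Π_v` is unitary, a parameter `z ∈ {a_v, b_v}` with `|z| ≠ 1` is either real, or not real and then
`b = \bar a` or `1/b = \bar a`: real and complex type.

By the generic transfer (Asgari, Shahidi; also Cogdell, Kim, Piatetski-Shapiro, Shahidi) there are automorphic
representations of `GL_4` and `GL_5` (isobaric sums of unitary cuspidal ones) with these eigenvalues; let `r₁, r₂` be the
orders of the poles at `s = 1` of their Rankin-Selberg `L`-functions (`1` if the representation is cuspidal, so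
`r₁ = r₂ = 1` for general `Π`).  Put `A = |z| + 1/|z|`.

**Theorem.**

1. For every `δ > 0`, `σ > 1 - 2 δ`, `σ ≥ 0`: the places with `|a_v| ≥ (N v)^δ` have counting function `O(x^σ)`, and
   `∑ (N v)^{-σ}` over them converges; for those of complex type this holds for every `σ > 1 - 4 δ`, `σ ≥ 0`.  In particular
   for every `δ > 0` almost all places satisfy `θ_v < δ`, and only finitely many places of complex type have `θ_v ≥ δ` if
   `δ > 1/4`.
2. For every choice of parameters `z_v ∈ {a_v, b_v}`, with sums over the places with `|z_v| ≠ 1`, `1 < s ≤ 2`: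
   `∑_{z_v real} (A_v² - 1)² / (A_v² + 2) (N v)^{-s} ≤ (r₁ + r₂ / 2) log (1 / (s - 1)) + C`,
   `∑_{z_v not real} (A_v² - 3)² (N v)^{-s} ≤ r₂ log (1 / (s - 1)) + C`.

If `r₁ = r₂ = 1` the first function of `A_v` is `> 3/2 = r₁ + r₂/2` at ALL non-tempered places of real type, and the second
one is `> 1 = r₂` at all non-tempered places of complex type: for every `X > 1`, the non-tempered places of real type
with `|z_v| ≥ X` have upper Dirichlet density at most `(3/2) (A² + 2) / (A² - 1)² < 1`, those of complex type at most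
`1 / (A² - 3)² < 1`, `A = X + 1/X`.  So for every `X > 1` a positive proportion of the places is not of the first kind, and
a positive proportion not of the second kind.

What is used of `Π` (structures `UnitaryGSp`, `RankinSelberg`) is known: the `Π_v` are unitary, and the Rankin-Selberg
products of the two transfers converge for `Re s > 1` and have poles of order `r₁`, `r₂`.

Proof.  Real type: `x = a + 1/a` is real with `|x| = A`, `y = b + 1/b` is real, and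
`(x + y)² + (1 + x y)²/2 - (x² - 1)²/(x² + 2) = ((x² + 2) y + 3 x)² / (2 (x² + 2)) ≥ 0`.  Complex type: `b + 1/b` is the
complex conjugate of `a + 1/a`, and the standard trace is `1 + |a + 1/a|² ≥ A² - 3`.
-/

set_option autoImplicit false

namespace Pool.Agent.Results.MP_08cfa9_nt.NontemperedPlacesPGSp4

open NumberField IsDedekindDomain Pool.Agent.Q18.S
open Pool.Agent.TH861.GL3 (PL qq)

/-- **The non-tempered places of a globally generic representation of `PGSp_4`.** -/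
theorem result {K : Type*} [Field K] [NumberField K] {S : Finset (HeightOneSpectrum (𝓞 K))} {a b : PL S → ℂ}
    (hU : ∀ v, UnitaryGSp (a v) (b v)) {r₁ r₂ : ℕ} (h1 : RankinSelberg (fun v k => spin (a v) (b v) k) r₁)
    (h2 : RankinSelberg (fun v k => std (a v) (b v) k) r₂) :
    -- sparse sets of places
    (∀ δ σ : ℝ, 0 < δ → 0 ≤ σ → 1 - 2 * δ < σ →
      (Summable fun v : {v : PL S // (qq v.1 : ℝ) ^ δ ≤ ‖a v‖} => (qq v.1.1 : ℝ) ^ (-σ)) ∧
      ∃ C : ℝ, ∀ x : ℝ, 0 < x →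
        (({v : PL S | (qq v.1 : ℝ) ≤ x ∧ (qq v.1 : ℝ) ^ δ ≤ ‖a v‖}.ncard : ℕ) : ℝ) ≤ C * x ^ σ) ∧
    -- complex type
    (∀ δ σ : ℝ, 0 < δ → 0 ≤ σ → 1 - 4 * δ < σ →
      (Summable fun v : {v : PL S // (qq v.1 : ℝ) ^ δ ≤ ‖a v‖ ∧ (a v).im ≠ 0} => (qq v.1.1 : ℝ) ^ (-σ)) ∧
      ∃ C : ℝ, ∀ x : ℝ, 0 < x →
        (({v : PL S | (qq v.1 : ℝ) ≤ x ∧ (qq v.1 : ℝ) ^ δ ≤ ‖a v‖ ∧ (a v).im ≠ 0}.ncard : ℕ) : ℝ) ≤ C * x ^ σ) ∧
    -- mean values, for every choice of one of the parameters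
    ∀ z : PL S → ℂ, (∀ v, z v = a v ∨ z v = b v) → ∃ C : ℝ, ∀ s : ℝ, 1 < s → s ≤ 2 →
      ((Summable fun v : {v : PL S // ‖z v‖ ≠ 1 ∧ (z v).im = 0} =>
          ((‖z v.1‖ + ‖z v.1‖⁻¹) ^ 2 - 1) ^ 2 / ((‖z v.1‖ + ‖z v.1‖⁻¹) ^ 2 + 2) * (qq v.1.1 : ℝ) ^ (-s)) ∧
        ∑' v : {v : PL S // ‖z v‖ ≠ 1 ∧ (z v).im = 0},
          ((‖z v.1‖ + ‖z v.1‖⁻¹) ^ 2 - 1) ^ 2 / ((‖z v.1‖ + ‖z v.1‖⁻¹) ^ 2 + 2) * (qq v.1.1 : ℝ) ^ (-s) ≤
            (r₁ + r₂ / 2) * Real.log (1 / (s - 1)) + C) ∧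
      (Summable fun v : {v : PL S // ‖z v‖ ≠ 1 ∧ (z v).im ≠ 0} =>
          ((‖z v.1‖ + ‖z v.1‖⁻¹) ^ 2 - 3) ^ 2 * (qq v.1.1 : ℝ) ^ (-s)) ∧
        ∑' v : {v : PL S // ‖z v‖ ≠ 1 ∧ (z v).im ≠ 0},
          ((‖z v.1‖ + ‖z v.1‖⁻¹) ^ 2 - 3) ^ 2 * (qq v.1.1 : ℝ) ^ (-s) ≤ r₂ * Real.log (1 / (s - 1)) + C := by
  have hq1 : ∀ v : PL S, 1 < (qq v.1 : ℝ) := norm_gt
  refine ⟨fun δ σ hδ hσ0 hσ => ?_, fun δ σ hδ hσ0 hσ => ?_, fun z hz => ?_⟩
  · refine sparse_of h1 h2 (fun v => (qq v.1 : ℝ) ^ δ ≤ ‖a v‖) (c := 1 / 8) (θ := 2 * δ) (by norm_num) hσ hσ0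
      fun v hv => ?_
    have hX : 1 < (qq v.1 : ℝ) ^ δ := Real.one_lt_rpow (hq1 v) hδ
    have h3 := (any_type (hU v) (lt_of_lt_of_le hX hv)).1
    have h4 : (qq v.1 : ℝ) ^ (2 * δ) ≤ ‖a v‖ ^ 2 := by
      rw [mul_comm, Real.rpow_mul (by linarith [hq1 v]), Real.rpow_ofNat]
      exact pow_le_pow_left₀ (by linarith) hv 2
    have h5 : 0 ≤ ‖std (a v) (b v) 1‖ ^ 2 := sq_nonneg _
    linarith
  · refine sparse_of h1 h2 (fun v => (qq v.1 : ℝ) ^ δ ≤ ‖a v‖ ∧ (a v).im ≠ 0) (c := 1 / 16) (θ := 4 * δ) (by norm_num)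
      hσ hσ0 fun v hv => ?_
    have hX : 1 < (qq v.1 : ℝ) ^ δ := Real.one_lt_rpow (hq1 v) hδ
    have h3 := (any_type (hU v) (lt_of_lt_of_le hX hv.1)).2 hv.2
    have h4 : (qq v.1 : ℝ) ^ (4 * δ) ≤ ‖a v‖ ^ 4 := by
      rw [mul_comm, Real.rpow_mul (by linarith [hq1 v]), Real.rpow_ofNat]
      exact pow_le_pow_left₀ (by linarith) hv.1 4
    have h5 : 0 ≤ ‖spin (a v) (b v) 1‖ ^ 2 := sq_nonneg _
    linarith
  · have hA2 : ∀ v, 2 ≤ ‖z v‖ + ‖z v‖⁻¹ := by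
      intro v
      refine add_inv_ge (norm_pos_iff.2 ?_)
      rcases hz v with h | h
      · rw [h]; exact (hU v).ne_a
      · rw [h]; exact (hU v).ne_b
    have hreal : ∀ v, ‖z v‖ ≠ 1 ∧ (z v).im = 0 → ((‖z v‖ + ‖z v‖⁻¹) ^ 2 - 1) ^ 2 / ((‖z v‖ + ‖z v‖⁻¹) ^ 2 + 2) ≤
        1 * ‖spin (a v) (b v) 1‖ ^ 2 + 1 / 2 * ‖std (a v) (b v) 1‖ ^ 2 := by
      intro v hv
      rcases hz v with h | h
      · have := real_type (hU v) (by rw [← h]; exact hv.2)
        rw [← h] at this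
        rw [h] at this ⊢
        linarith
      · have := real_type (hU v).symm (by rw [← h]; exact hv.2)
        rw [spin_symm, std_symm] at this
        rw [h]
        linarith
    have hcomp : ∀ v, ‖z v‖ ≠ 1 ∧ (z v).im ≠ 0 → ((‖z v‖ + ‖z v‖⁻¹) ^ 2 - 3) ^ 2 ≤
        0 * ‖spin (a v) (b v) 1‖ ^ 2 + 1 * ‖std (a v) (b v) 1‖ ^ 2 := by
      intro v hv
      rw [zero_mul, zero_add, one_mul]
      have h3 : 0 ≤ (‖z v‖ + ‖z v‖⁻¹) ^ 2 - 3 := by nlinarith [hA2 v]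
      refine pow_le_pow_left₀ h3 ?_ 2
      rcases hz v with h | h
      · rw [h]
        exact complex_type (hU v) (by rw [← h]; exact hv.1) (by rw [← h]; exact hv.2)
      · rw [h, ← std_symm]
        exact complex_type (hU v).symm (by rw [← h]; exact hv.1) (by rw [← h]; exact hv.2)
    obtain ⟨C₁, H₁⟩ := compare h1 h2 (x₁ := 1) (x₂ := 1 / 2) (by norm_num) (by norm_num)
      (fun v => ‖z v‖ ≠ 1 ∧ (z v).im = 0)
      (fun v => ((‖z v‖ + ‖z v‖⁻¹) ^ 2 - 1) ^ 2 / ((‖z v‖ + ‖z v‖⁻¹) ^ 2 + 2)) (fun v _ => by positivity) hreal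
    obtain ⟨C₂, H₂⟩ := compare h1 h2 (x₁ := 0) (x₂ := 1) le_rfl (by norm_num)
      (fun v => ‖z v‖ ≠ 1 ∧ (z v).im ≠ 0)
      (fun v => ((‖z v‖ + ‖z v‖⁻¹) ^ 2 - 3) ^ 2) (fun v _ => by positivity) hcomp
    refine ⟨max C₁ C₂, fun s hs hs2 => ?_⟩
    obtain ⟨s1, l1⟩ := H₁ s hs hs2
    obtain ⟨s2, l2⟩ := H₂ s hs hs2
    refine ⟨⟨s1, l1.trans ?_⟩, s2, l2.trans ?_⟩
    · have := le_max_left C₁ C₂
      have e : (1 : ℝ) * r₁ + 1 / 2 * r₂ = r₁ + r₂ / 2 := by ring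
      rw [e]
      linarith
    · have := le_max_right C₁ C₂
      have e : (0 : ℝ) * r₁ + 1 * r₂ = r₂ := by ring
      rw [e]
      linarith

end Pool.Agent.Results.MP_08cfa9_nt.NontemperedPlacesPGSp4
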