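import Mathlib
import Pool.Agent.Q18.RS.Adm

/-!
# Cuspidal representations of `GL_n` over `ℚ`: the Rankin-Selberg prime number sum from one side, at every scale

Let `n ≥ 2` and let `Π` be a unitary cuspidal automorphic representation of `GL_n` over `ℚ` (every such `Π` is
globally generic), unramified outside the finite set `S` of primes, with Satake parameters `α_{i,p}` and
`λ(p) = ∑_i α_{i,p}`, `p ∉ S`.  The prime number theorem for `L(s, Π × Π~)` says that

  `Δ(x) = ∑_{p ≤ x, p ∉ S} (1 - |λ(p)|²)`

is `o(x / log x)`.  We show that a violation of the Ramanujan conjecture at ONE place makes this SIGNED sum large and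
positive, and this at every scale: let `1/2 ≤ c < 2 |log_p |α_{i,p}||` for one `p ∉ S` and one `i`, or, more generally,
`c < x` where `x` is a real pole of the local factor of `L(s, Π × Π~)` at some place `v ≤ ∞` (for tempered `Π_v` there is
no such `x > 0`), or `c < Re ρ`, `ρ` a zero or a pole of `L(s, Π × Π~) / ζ(s)`.  Then for every `δ > 0` and **all**
large `X` there is an `x ∈ [X^{1-δ}, X]` with

  `∑_{p ≤ x, p ∉ S} |λ(p)|² ≤ ∑_{p ≤ x, p ∉ S} 1 - x^c`.

So a ONE-SIDED bound `Δ(x) < x^c` on ONE sequence of windows `[X^{1-δ}, X]` implies the bounds `c/2` towards the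
Ramanujan conjecture at ALL places.

With the prime powers (weights `1/k`) the same holds for every `c < 1/2`, unconditionally, and for `c < Re ρ`; the
opposite sign also occurs, `∑_{p^k ≤ x} (|∑_i α_{i,p}^k|² - 1) / k ≥ x^c`, provided that `L(s, Π × Π~) / ζ(s)` has no
real zeros larger than `c`.

`TemperedEveryScale` (starting results) is about `∑ max(0, 1 - |λ(p)|²)` over a window, a sum of NONNEGATIVE terms (it
gives small eigenvalues, but no cancellation free information on the mean value of `|λ(p)|²`); here the terms have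
both signs.  (By Landau's lemma alone one gets `Δ(x) ≥ x^c` for arbitrarily large `x`; it says nothing about a given
window.)

The structure `CuspidalRep` (from `SmallEigenvaluesAllPlaces`) lists what is used of `Π`; all of it is known for every
unitary cuspidal `Π`: the local components are unitary; the Rankin-Selberg series converges absolutely for `Re s > 1`;
`L(s, Π × Π~)` is entire except for a simple pole at `s = 1`, of polynomial growth in vertical strips, and it
satisfies the functional equation, with Euler factors of degree `n²` at the primes of `S`.  Nothing is assumed of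
`L(s, Π × Π~) / ζ(s)` at the zeros of `ζ`.

The proof: let `F = L(s, Π × Π~) / ζ(s)` (without the Euler factors in `S`, and without the one at `p` if `Π_p` violates
the conjecture).  The violation gives a real zero of `F`; there are no real poles in `s ≥ 1/2`.  Let `A(u)` be the
summatory function of the coefficients of `-log F`.  The average of `A(u) e^{-σu}` against a Gaussian centred at `Y`
(`σ` real, slightly to the left of the rightmost singularities of `F`) is `≥ -o(1)`, all logarithmic branch cuts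
at real zeros contributing with the right sign; the one at a suitable complex point `σ + i t` is exponentially large,
as a single term of the explicit formula dominates.  If `A(u) < e^{cu}` in the window, this is a contradiction.
-/

set_option autoImplicit false

namespace Pool.Agent.Results.MP_08cfa9_nt.OneSidedEveryScale

open Pool.Agent.W189.TP (PS)
open Pool.Agent.TH949.RES (CuspidalRep)
open Pool.Agent.TH949.TX (Adm Sing)
open Pool.Agent.Q18.RS (NoRealZero)

open scoped Classical in
/-- **The signed Rankin-Selberg prime number sum at every scale.** -/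
theorem result {n : ℕ} (hn : 2 ≤ n) {S : Finset Nat.Primes} {α : PS S → Fin n → ℂ}
    {β : Nat.Primes → Fin (n ^ 2) → ℂ} {κ : Fin (n ^ 2 - 1) → ℂ} (h : CuspidalRep S α β κ) {c δ : ℝ} (hδ : 0 < δ) :
    (1 / 2 ≤ c → Adm S α β κ c → ∃ X₀ : ℝ, ∀ X : ℝ, X₀ ≤ X → ∃ x : ℝ, X ^ (1 - δ) ≤ x ∧ x ≤ X ∧
      x ^ c ≤ ∑' p : PS S, if ((p.1 : ℕ) : ℝ) ≤ x then 1 - ‖∑ i, α p i‖ ^ 2 else 0) ∧
    (c < 1 / 2 ∨ Sing α c → ∃ X₀ : ℝ, ∀ X : ℝ, X₀ ≤ X → ∃ x : ℝ, X ^ (1 - δ) ≤ x ∧ x ≤ X ∧
      x ^ c ≤ ∑' y : PS S × ℕ, if ((y.1.1 : ℕ) : ℝ) ^ (y.2 + 1) ≤ x then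
        (1 - ‖∑ i, α y.1 i ^ (y.2 + 1)‖ ^ 2) / ((y.2 : ℝ) + 1) else 0) ∧
    (NoRealZero α c → (c < 1 / 2 ∨ Sing α c) → ∃ X₀ : ℝ, ∀ X : ℝ, X₀ ≤ X → ∃ x : ℝ, X ^ (1 - δ) ≤ x ∧ x ≤ X ∧
      x ^ c ≤ ∑' y : PS S × ℕ, if ((y.1.1 : ℕ) : ℝ) ^ (y.2 + 1) ≤ x then
        (‖∑ i, α y.1 i ^ (y.2 + 1)‖ ^ 2 - 1) / ((y.2 : ℝ) + 1) else 0) := by
  refine ⟨fun hc0 hc => Filter.eventually_atTop.1 (Pool.Agent.Q18.RS.adm_primes hn h hc0 hc hδ), fun hc => ?_,
    fun hz hc => ?_⟩
  · obtain ⟨a, h1, -, h2⟩ := Pool.Agent.Q18.RS.key_neg hn h hc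
    exact Filter.eventually_atTop.1 (Pool.Agent.Q18.RS.powers_neg h1 h2 hδ)
  · obtain ⟨a, h1, -, h2⟩ := Pool.Agent.Q18.RS.key_pos hn h hz hc
    exact Filter.eventually_atTop.1 (Pool.Agent.Q18.RS.powers_pos h1 h2 hδ)

end Pool.Agent.Results.MP_08cfa9_nt.OneSidedEveryScale
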