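import Mathlib
import Pool.Agent.Q12.WN.NFPi

/-!
# Generic representations of classical groups: bounds at all places and a zero-free half-plane from a one-sided bound

Let `G` be a quasi-split classical group over a number field, `Π_G` a globally generic unitary cuspidal automorphic
representation of `G`, and `Π` its functorial lift to `GL_n` over the number field `K` (`K` is the base field, or the
quadratic extension if `G` is a unitary group).  The lift is an isobaric sum of `r` distinct (conjugate) self-dual unitary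
cuspidal representations of groups `GL_{n_i}` (Cogdell, Kim, Piatetski-Shapiro, Shahidi; Arthur; Mok), and it is
cuspidal only if `r = 1`.  Let `α_{i,v}`, `v ∉ S`, be the eigenvalues of the Satake parameter, `λ(v) = ∑_i α_{i,v}`, and
`π(x)` the number of the prime numbers `p ≤ x`.  By the prime number theorem for `L(s, Π × Π~)`, which has a pole of order
`r` at `s = 1`,

  `∑_{N v ≤ x, v ∉ S} |λ(v)|² = r π(x) + o(x / log x)`.

We show: if for some `c ≥ 1/2`, `A`, `δ > 0` there are arbitrarily large `X` such that the ONE-SIDED bound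

  `∑_{N v ≤ x, v ∉ S} |λ(v)|² > r π(x) - A x^c`   for all `x ∈ [X^{1-δ}, X]`

holds - in one, arbitrarily sparse, sequence of windows -, then

* `|log_{N v} |α_{i,v}|| ≤ c / 2` for all `v ∉ S`, and `L(s, Π_v × Π~_v)` has no real pole `> c` at the places `v ∈ S` and
  at the archimedean places, i.e. `Π` satisfies the bound `c / 2` towards the Ramanujan conjecture at ALL places;
* `L^S(s, Π × Π~) / ζ(s)^r` has no zeros and no poles in the half-plane `Re s > c`.

The same holds for sums with weights.  Let `χ_0 = 1, χ_1, ..., χ_m` be Hecke characters of `K` of finite order, unramified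
outside `S`, with `∑_j χ_j(v)^k ≥ 0` for all `v`, `k`, and let `e_j` be the order of the pole of
`L^S(s, Π × Π~ × χ_j)` at `s = 1`, i.e. the number of the pairs of constituents with `π_i ⊗ χ_j ≅ π_{i'}`, so `e_0 = r`.
If

  `∑_{N v ≤ x, v ∉ S} (∑_j χ_j(v)) |λ(v)|² > (∑_j e_j) π(x) - A x^c`   for all `x ∈ [X^{1-δ}, X]`

for arbitrarily large `X`, then the same bounds hold at all places, and `∏_j L^S(s, Π × Π~ × χ_j) / ζ(s)^{∑ e_j}` has no
zeros and no poles in `Re s > c`.  For the characters of an abelian extension `L / K` the sum extends over the places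
which split completely in `L`, so that all places are controlled by those.  (If Ramanujan fails at one place by more than
`c / 2`, then this one-sided bound fails in EVERY window `[X^{1-δ}, X]`, `X ≥ X₀`.)  Nothing is assumed of the zeros of any
`L`-function.

`OneSidedEveryScale` of this problem is the case of cuspidal representations of `GL_n` over `ℚ` without weights,
`MP_8410ab_nt.OneSidedAllFields` the case `r = 1`.  The starting results `TemperedEveryScale`,
`SmallEigenvaluesAllPlaces` treat sums of `max(0, 1 - |λ(p)|²)` (over `ℚ`); here `1` would have to be replaced by `r`,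
and for `r > 1` the comparison with `r π(x)` for the signed sum is used.

The structures `IsobaricRepK` and `TwistK` list what is used; all of it is known for every isobaric sum of distinct
unitary cuspidal representations, none of which is isomorphic to another one twisted by `|det|^{it}`, as is the case for
the lifts (Jacquet, Piatetski-Shapiro, Shalika; Moeglin, Waldspurger): the local components at `v ∉ S` are unitary; the
Rankin-Selberg series converges absolutely for `Re s > 1`; `(s - 1)^r L(s, Π × Π~)` is entire, with Euler factors of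
degree `≤ n²` at `v ∈ S`, and the completed function, with `n² [K : ℚ]` factors `Γ_ℝ(s + κ_j)`, times
`s^r (s - 1)^r`, is entire; `(s - 1)^{e_j} L^S(s, Π × Π~ × χ_j)` is entire.

The proof: otherwise `F(s) = ∏_j L^S(s, Π × Π~ × χ_j) / ζ(s)^{∑ e_j}`, without the Euler factor at `v` if `v ∉ S` is a bad
place, has a zero or pole with real part `> c`; it has no poles at real `s > 0`, and the coefficients of `-log F` are
bounded from above.  A localised explicit formula for their summatory function at a real point (where all zeros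
contribute with the right sign) and at a complex point (where one term is exponentially large) shows that it takes large
positive values in every window.
-/

set_option autoImplicit false

namespace Pool.Agent.Results.MP_08cfa9_nt.OneSidedIsobaric

open NumberField IsDedekindDomain Pool.Agent.Q12.WN
open Pool.Agent.TH861.GL3 (PL qq)

open scoped Classical in
/-- **Lifts of generic representations of classical groups: bounds at all places and a zero-free half-plane from a
one-sided bound for a weighted Rankin-Selberg sum on one sequence of windows.** -/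
theorem result {K : Type*} [Field K] [NumberField K] {n r : ℕ} {S : Finset (HeightOneSpectrum (𝓞 K))}
    {α : PL S → Fin n → ℂ} {β : HeightOneSpectrum (𝓞 K) → Fin (n ^ 2) → ℂ}
    {κ : Fin (n ^ 2 * Module.finrank ℚ K) → ℂ} (h : IsobaricRepK S r α β κ) {c δ : ℝ} (hc : 1 / 2 ≤ c) (hδ : 0 < δ)
    (A : ℝ) (m : ℕ) (χ : Fin (m + 1) → PL S → ℂ) (e : Fin (m + 1) → ℕ) (hχ0 : ∀ v, χ 0 v = 1) (he0 : e 0 = r)
    (hχ : ∀ j ≠ 0, TwistK α (χ j) (e j))
    (hw : ∀ (v : PL S) (k : ℕ), ∃ w : ℝ, 0 ≤ w ∧ ∑ j, χ j v ^ (k + 1) = (w : ℂ))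
    -- the one-sided bound on one sequence of windows
    (hX : ∀ X₀ : ℝ, ∃ X : ℝ, X₀ ≤ X ∧ ∀ x : ℝ, X ^ (1 - δ) ≤ x → x ≤ X →
      (∑ j, e j : ℕ) * (Nat.primeCounting ⌊x⌋₊ : ℝ) - A * x ^ c <
        ∑' v : PL S, if (qq v.1 : ℝ) ≤ x then (∑ j, χ j v).re * ‖∑ i, α v i‖ ^ 2 else 0) :
    -- the unramified places
    (∀ (v : PL S) (i : Fin n), |Real.logb (qq v.1 : ℝ) ‖α v i‖| ≤ c / 2) ∧
    -- the places in `S`
    (∀ v ∈ S, ∀ (i : Fin (n ^ 2)) (x : ℝ), β v i = ((qq v : ℕ) : ℂ) ^ (x : ℂ) → x ≤ c) ∧
    -- the archimedean places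
    (∀ (j : Fin (n ^ 2 * Module.finrank ℚ K)) (x : ℝ), κ j = -(x : ℂ) → x ≤ c) ∧
    -- the half-plane `Re s > c`
    (∀ F : ℂ → ℂ, MeromorphicOn F Set.univ →
      (∀ s : ℂ, 1 < s.re → F s * riemannZeta s ^ (∑ j, e j) = Complex.exp (∑ j, logK (χ j) (tr2 α) s)) →
      ∀ ρ : ℂ, c < ρ.re → meromorphicOrderAt F ρ = 0) := by
  have key : ¬ (BadPlace S α β κ c ∨ ∃ (F : ℂ → ℂ) (ρ : ℂ), MeromorphicOn F Set.univ ∧
      (∀ s : ℂ, 1 < s.re → F s * riemannZeta s ^ (∑ j, e j) = Complex.exp (∑ j, logK (χ j) (tr2 α) s)) ∧
      c < ρ.re ∧ meromorphicOrderAt F ρ ≠ 0) := by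
    intro hv
    obtain ⟨X₀, hX₀⟩ := Filter.eventually_atTop.1 (nf_pi h hc (χ := χ) (e := e) (j₀ := 0) hχ0 (fun j => by
      by_cases hj : j = 0
      · subst hj
        exact Or.inl ⟨hχ0, he0⟩
      · exact Or.inr ⟨hj, hχ j hj⟩) hw hv hδ A)
    obtain ⟨X, h1, h2⟩ := hX X₀
    obtain ⟨x, h3, h4, h5⟩ := hX₀ X h1
    have h6 := h2 x h3 h4
    linarith
  rw [not_or] at key
  obtain ⟨k1, k2⟩ := key
  refine ⟨fun v i => ?_, fun v hv i x hx => ?_, fun j x hx => ?_, fun F hF hE ρ hρ => ?_⟩
  · by_contra h1
    exact k1 (Or.inl ⟨v, i, by linarith [not_le.1 h1]⟩)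
  · by_contra h1
    exact k1 (Or.inr (Or.inl ⟨v, hv, i, x, hx, not_le.1 h1⟩))
  · by_contra h1
    exact k1 (Or.inr (Or.inr ⟨j, x, hx, not_le.1 h1⟩))
  · by_contra h1
    exact k2 ⟨F, ρ, hF, hE, hρ, h1⟩

end Pool.Agent.Results.MP_08cfa9_nt.OneSidedIsobaric
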